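import Pool.Agent.H69.LQ.Lib

/-! Module KP of MP_8f7db2_an: the angular Laplacian of a polynomial. -/

set_option autoImplicit false

open MeasureTheory Metric Set
open scoped ENNReal
open Pool.Agent.H85.LK (E adm lam Ann)
open Pool.Agent.H69.LQ

namespace Pool.Agent.H14.LQ

section

variable {N : ℕ} {i j : Fin N}

theorem ll_eq (f : E N → ℝ) (x : E N) : LL i j f x =
    fderiv ℝ f x (x i • EuclideanSpace.single j 1 - x j • EuclideanSpace.single i 1) := by
  unfold LL
  rw [map_sub, map_smul, map_smul, smul_eq_mul, smul_eq_mul]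

theorem ll_mul {f g : E N → ℝ} (hf : Differentiable ℝ f) (hg : Differentiable ℝ g) (x : E N) :
    LL i j (fun x => f x * g x) x = f x * LL i j g x + g x * LL i j f x := by
  rw [ll_eq, ll_eq, ll_eq, fderiv_fun_mul (hf x) (hg x)]
  rfl

theorem ll_sum {ι : Type} (s : Finset ι) {f : ι → E N → ℝ}
    (hf : ∀ m ∈ s, Differentiable ℝ (f m)) :
    LL i j (fun x => ∑ m ∈ s, f m x) = fun x => ∑ m ∈ s, LL i j (f m) x := by
  funext x
  rw [ll_eq, fderiv_fun_sum fun m hm => hf m hm x]
  simp only [_root_.sum_apply, ll_eq]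

theorem ll_smooth {f : E N → ℝ} (hf : ContDiff ℝ (⊤ : ℕ∞) f) :
    ContDiff ℝ (⊤ : ℕ∞) (LL i j f) := by
  have h1 : ContDiff ℝ (⊤ : ℕ∞) (fderiv ℝ f) := hf.fderiv_right (by norm_cast)
  have h2 : ∀ k : Fin N, ContDiff ℝ (⊤ : ℕ∞) fun x : E N => x k := fun k => by fun_prop
  exact ((h2 i).mul (h1.clm_apply contDiff_const)).sub ((h2 j).mul (h1.clm_apply contDiff_const))

theorem ev_smooth (P : MvPolynomial (Fin N) ℝ) : ContDiff ℝ (⊤ : ℕ∞) (ev P) := by
  induction P using MvPolynomial.induction_on with
  | C a =>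
    have h : (ev (MvPolynomial.C a) : E N → ℝ) = fun _ => a := by
      funext x
      simp [ev]
    rw [h]
    exact contDiff_const
  | add p q hp hq =>
    have h : (ev (p + q) : E N → ℝ) = fun x => ev p x + ev q x := by
      funext x
      simp [ev]
    rw [h]
    exact hp.add hq
  | mul_X p k hp =>
    have h : (ev (p * MvPolynomial.X k) : E N → ℝ) = fun x => ev p x * x k := by
      funext x
      simp [ev]
    have h2 : ContDiff ℝ (⊤ : ℕ∞) fun x : E N => x k := by fun_prop
    rw [h]
    exact hp.mul h2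

theorem sm_diff {f : E N → ℝ} (hf : ContDiff ℝ (⊤ : ℕ∞) f) : Differentiable ℝ f :=
  hf.differentiable (by norm_num)

theorem BM_sm {f : E N → ℝ} (hf : ContDiff ℝ (⊤ : ℕ∞) f) : BM fun θ : Sp N => f (θ : E N) :=
  BM_cont (hf.continuous.comp continuous_subtype_val)

/-- integration by parts for the polarized gradient -/
theorem av_Gb (hAN : T_AN) (hN : 2 ≤ N) {f g : E N → ℝ} (hf : ContDiff ℝ (⊤ : ℕ∞) f)
    (hg : ContDiff ℝ (⊤ : ℕ∞) g) : av (fun θ : Sp N => Gb f g (θ : E N)) =
      av fun θ : Sp N => f (θ : E N) * (-(1 / 2) * ∑ i, ∑ j, LL i j (LL i j g) (θ : E N)) := by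
  have h1 : ∀ i j : Fin N, av (fun θ : Sp N => LL i j f (θ : E N) * LL i j g (θ : E N)) =
      -av fun θ : Sp N => f (θ : E N) * LL i j (LL i j g) (θ : E N) := by
    intro i j
    have h2 := hAN N (fun x => f x * LL i j g x) i j hN (hf.mul (ll_smooth hg))
    have h3 : (fun θ : Sp N => LL i j (fun x => f x * LL i j g x) (θ : E N)) =
        fun θ : Sp N => f (θ : E N) * LL i j (LL i j g) (θ : E N) +
          LL i j f (θ : E N) * LL i j g (θ : E N) := by
      funext θ
      rw [ll_mul (sm_diff hf) (sm_diff (ll_smooth hg))]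
      ring
    rw [h3, av_add (BM_sm (hf.mul (ll_smooth (ll_smooth hg))))
      (BM_sm ((ll_smooth hf).mul (ll_smooth hg)))] at h2
    linarith
  have h4 : (fun θ : Sp N => Gb f g (θ : E N)) = fun θ : Sp N => 1 / 2 *
      ∑ i, ∑ j, LL i j f (θ : E N) * LL i j g (θ : E N) := rfl
  have h5 : (fun θ : Sp N => f (θ : E N) * (-(1 / 2) * ∑ i, ∑ j,
      LL i j (LL i j g) (θ : E N))) = fun θ : Sp N => -(1 / 2) *
      ∑ i, ∑ j, f (θ : E N) * LL i j (LL i j g) (θ : E N) := by
    funext θ
    simp only [← Finset.mul_sum]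
    ring
  rw [h4, h5, av_const_mul, av_const_mul,
    av_sum _ fun i _ => BM.sum _ fun j _ => BM_sm ((ll_smooth hf).mul (ll_smooth hg)),
    av_sum _ fun i _ => BM.sum _ fun j _ => BM_sm (hf.mul (ll_smooth (ll_smooth hg)))]
  rw [neg_mul, ← mul_neg, ← Finset.sum_neg_distrib]
  congr 1
  refine Finset.sum_congr rfl fun i _ => ?_
  rw [av_sum _ fun j _ => BM_sm ((ll_smooth hf).mul (ll_smooth hg)),
    av_sum _ fun j _ => BM_sm (hf.mul (ll_smooth (ll_smooth hg))), ← Finset.sum_neg_distrib]
  exact Finset.sum_congr rfl fun j _ => h1 i j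

end

theorem pf_KP (hAN : T_AN) (hKI : T_KI) : T_KP := by
  classical
  intro N n Q hN hQ
  have hhom : ∀ m : ℕ, (MvPolynomial.homogeneousComponent m Q).IsHomogeneous m := fun m =>
    MvPolynomial.homogeneousComponent_isHomogeneous m Q
  have hex := fun m => (hKI N m _ (hhom m)).2
  choose R hR1 hR2 hR3 using hex
  set c : ℕ → ℝ := fun m => (m : ℝ) * (m + N - 2) with hc
  refine ⟨∑ m ∈ Finset.range (n + 1), (MvPolynomial.C (c m - c n) *
    MvPolynomial.homogeneousComponent m Q + R m), ?_, ?_, ?_⟩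
  · refine MvPolynomial.totalDegree_finsetSum_le fun m hm => ?_
    have hmn : m ≤ n := Nat.lt_succ_iff.1 (Finset.mem_range.1 hm)
    refine (MvPolynomial.totalDegree_add _ _).trans (max_le ?_ ((hR1 m).trans (by omega)))
    rcases Nat.lt_or_ge m n with h | h
    · refine (MvPolynomial.totalDegree_mul _ _).trans ?_
      rw [MvPolynomial.totalDegree_C, zero_add]
      exact (hhom m).totalDegree_le.trans (by omega)
    · have hmn' : m = n := le_antisymm hmn h
      rw [hmn', sub_self, map_zero, zero_mul, MvPolynomial.totalDegree_zero]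
      exact Nat.zero_le _
  · intro hn
    subst hn
    rw [Finset.sum_range_one, sub_self, map_zero, zero_mul, hR2 0 rfl, add_zero]
  · intro f hf
    rw [av_Gb hAN hN hf (ev_smooth Q)]
    congr 1
    funext θ
    congr 1
    have hQs : Q = ∑ m ∈ Finset.range (n + 1), MvPolynomial.homogeneousComponent m Q := by
      conv_lhs => rw [← MvPolynomial.sum_homogeneousComponent Q]
      refine Finset.sum_subset ?_ ?_
      · intro m hm
        rw [Finset.mem_range] at hm ⊢
        omega
      · intro m _ hm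
        rw [Finset.mem_range, not_lt] at hm
        exact MvPolynomial.homogeneousComponent_eq_zero _ _ (by omega)
    have hev : (ev Q : E N → ℝ) =
        fun x => ∑ m ∈ Finset.range (n + 1), ev (MvPolynomial.homogeneousComponent m Q) x := by
      funext x
      unfold ev
      conv_lhs => rw [hQs]
      rw [map_sum]
    have hLL : ∀ i j : Fin N, LL i j (LL i j (ev Q)) (θ : E N) = ∑ m ∈ Finset.range (n + 1),
        LL i j (LL i j (ev (MvPolynomial.homogeneousComponent m Q))) (θ : E N) := by
      intro i j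
      rw [hev, ll_sum _ fun m _ => sm_diff (ev_smooth _),
        ll_sum _ fun m _ => sm_diff (ll_smooth (ev_smooth _))]
    have hsum : -(1 / 2) * ∑ i, ∑ j, LL i j (LL i j (ev Q)) (θ : E N) =
        ∑ m ∈ Finset.range (n + 1), (c m * ev (MvPolynomial.homogeneousComponent m Q) (θ : E N) +
          ev (R m) (θ : E N)) := by
      have h6 : ∑ i, ∑ j, LL i j (LL i j (ev Q)) (θ : E N) = ∑ m ∈ Finset.range (n + 1),
          ∑ i, ∑ j, LL i j (LL i j (ev (MvPolynomial.homogeneousComponent m Q))) (θ : E N) := by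
        calc ∑ i, ∑ j, LL i j (LL i j (ev Q)) (θ : E N) =
            ∑ i, ∑ j, ∑ m ∈ Finset.range (n + 1),
              LL i j (LL i j (ev (MvPolynomial.homogeneousComponent m Q))) (θ : E N) :=
              Finset.sum_congr rfl fun i _ => Finset.sum_congr rfl fun j _ => hLL i j
          _ = ∑ i, ∑ m ∈ Finset.range (n + 1), ∑ j,
              LL i j (LL i j (ev (MvPolynomial.homogeneousComponent m Q))) (θ : E N) :=
              Finset.sum_congr rfl fun i _ => Finset.sum_comm
          _ = _ := Finset.sum_comm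
      rw [h6, Finset.mul_sum]
      exact Finset.sum_congr rfl fun m _ => hR3 m θ
    rw [hsum]
    have h7 : ev (∑ m ∈ Finset.range (n + 1), (MvPolynomial.C (c m - c n) *
        MvPolynomial.homogeneousComponent m Q + R m)) (θ : E N) =
        ∑ m ∈ Finset.range (n + 1), ((c m - c n) *
          ev (MvPolynomial.homogeneousComponent m Q) (θ : E N) + ev (R m) (θ : E N)) := by
      unfold ev
      rw [map_sum]
      refine Finset.sum_congr rfl fun m _ => ?_
      rw [map_add, map_mul, MvPolynomial.eval_C]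
    have h8 : (n : ℝ) * (n + N - 2) * ev Q (θ : E N) = ∑ m ∈ Finset.range (n + 1),
        c n * ev (MvPolynomial.homogeneousComponent m Q) (θ : E N) := by
      rw [← Finset.mul_sum]
      congr 1
      exact congrFun hev _
    rw [h7, h8, ← Finset.sum_add_distrib]
    exact Finset.sum_congr rfl fun m _ => by ring

end Pool.Agent.H14.LQ
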