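import Pool.Agent.H69.LQ.Lib

/-! Module PH of MP_8f7db2_an: the radial functions. -/

set_option autoImplicit false

open MeasureTheory Metric Set
open scoped ENNReal
open Pool.Agent.H85.LK (E adm lam Ann)
open Pool.Agent.H69.LQ

namespace Pool.Agent.H14.LQ

theorem hasDerivAt_pow' (k : ℕ) {r : ℝ} (hr : r ≠ 0) :
    HasDerivAt (fun r : ℝ => r ^ k) (k * (r ^ k * r⁻¹)) r := by
  refine (hasDerivAt_pow k r).congr_deriv ?_
  rcases Nat.eq_zero_or_pos k with h | h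
  · rw [h]
    simp
  · obtain ⟨j, rfl⟩ : ∃ j, k = j + 1 := ⟨k - 1, by omega⟩
    rw [Nat.add_sub_cancel, pow_succ, mul_assoc, mul_inv_cancel₀ hr, mul_one]

theorem pow_pred (k : ℕ) {r : ℝ} (hr : r ≠ 0) :
    (k : ℝ) * r ^ (k - 1) = k * (r ^ k * r⁻¹) := by
  rcases Nat.eq_zero_or_pos k with h | h
  · rw [h]
    simp
  · obtain ⟨j, rfl⟩ : ∃ j, k = j + 1 := ⟨k - 1, by omega⟩
    rw [Nat.add_sub_cancel, pow_succ, mul_assoc (r ^ j), mul_inv_cancel₀ hr, mul_one]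

theorem alg (S P a b c m r L N n : ℝ) (hr : r ≠ 0) (hm : m ≠ 0) (hm1 : m + 1 ≠ 0)
    (hN : N = 2 * m - 2 * n) (key : a = b - (L * r ^ 2 / 4) / (m * (m + 1)) * c) :
    (N - 1) * (S * r⁻¹) * (n * (P * r⁻¹) * a - P * (L * r / 2) * (b / m)) +
      S * ((n * (n * (P * r⁻¹) * r⁻¹ + P * (-(r ^ 2)⁻¹)) * a +
        n * (P * r⁻¹) * (-(b / m) * (L * (2 * r) / 4))) -
        ((n * (P * r⁻¹) * (L * r / 2) + P * (L / 2)) * (b / m) +
          P * (L * r / 2) * (-(c / (m + 1)) * (L * (2 * r) / 4) / m))) =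
    S * ((n * (n + N - 2) / r ^ 2 - L) * (P * a)) := by
  subst hN
  subst key
  field_simp
  ring

theorem pf_PH (hJS : T_JS) : T_PH := by
  intro N L hN
  have hN0 : (2 : ℝ) ≤ N := by exact_mod_cast hN
  have hm : ∀ n : ℕ, (0 : ℝ) < (N : ℝ) / 2 + n := by
    intro n
    have : (0 : ℝ) ≤ n := Nat.cast_nonneg n
    linarith
  have hz : ∀ r : ℝ, HasDerivAt (fun r : ℝ => L * r ^ 2 / 4) (L * (2 * r) / 4) r := by
    intro r
    have h := ((hasDerivAt_pow 2 r).const_mul L).div_const 4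
    refine h.congr_deriv ?_
    norm_num
  have hJ : ∀ (ν : ℝ), 0 < ν → ∀ r : ℝ, HasDerivAt (fun r : ℝ => J ν (L * r ^ 2 / 4))
      (-(J (ν + 1) (L * r ^ 2 / 4) / ν) * (L * (2 * r) / 4)) r := by
    intro ν hν r
    exact HasDerivAt.comp r ((hJS ν hν).2.2.1 (L * r ^ 2 / 4)) (hz r)
  have hJc : ∀ (ν : ℝ), 0 < ν → ContDiff ℝ (⊤ : ℕ∞) (fun r : ℝ => J ν (L * r ^ 2 / 4)) := by
    intro ν hν
    exact (hJS ν hν).1.comp (by fun_prop)
  refine ⟨fun n r => ?_, fun n => ⟨?_, ?_⟩, fun n r hr => ?_⟩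
  · have h := (hasDerivAt_pow n r).mul (hJ _ (hm n) r)
    refine h.congr_deriv ?_
    unfold dph
    ring
  · have h1 : ContDiff ℝ (⊤ : ℕ∞) fun r : ℝ => r ^ n := by fun_prop
    exact h1.mul (hJc _ (hm n))
  · have h1 : ContDiff ℝ (⊤ : ℕ∞) fun r : ℝ => (n : ℝ) * r ^ (n - 1) := by fun_prop
    have h2 : ContDiff ℝ (⊤ : ℕ∞) fun r : ℝ => r ^ n * (L * r / 2) := by fun_prop
    exact (h1.mul (hJc _ (hm n))).sub
      (h2.mul ((hJc _ (by linarith [hm n] : (0 : ℝ) < (N : ℝ) / 2 + n + 1)).div_const _))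
  · have hr0 : r ≠ 0 := hr.ne'
    have hm1 : (0 : ℝ) < (N : ℝ) / 2 + n + 1 := by linarith [hm n]
    have e : (fun r : ℝ => r ^ (N - 1) * dph N L n r) =ᶠ[nhds r] fun r : ℝ => r ^ (N - 1) *
        (n * (r ^ n * r⁻¹) * J ((N : ℝ) / 2 + n) (L * r ^ 2 / 4) - r ^ n * (L * r / 2) *
          (J ((N : ℝ) / 2 + n + 1) (L * r ^ 2 / 4) / ((N : ℝ) / 2 + n))) := by
      filter_upwards [eventually_ne_nhds hr0] with x hx
      unfold dph
      rw [pow_pred n hx]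
    refine HasDerivAt.congr_of_eventuallyEq ?_ e
    have h1 : HasDerivAt (fun r : ℝ => (n : ℝ) * (r ^ n * r⁻¹))
        (n * (n * (r ^ n * r⁻¹) * r⁻¹ + r ^ n * (-(r ^ 2)⁻¹))) r :=
      ((hasDerivAt_pow' n hr0).mul (hasDerivAt_inv hr0)).const_mul (n : ℝ)
    have h2 : HasDerivAt (fun r : ℝ => L * r / 2) (L / 2) r := by
      have h := ((hasDerivAt_id r).const_mul L).div_const 2
      refine h.congr_deriv ?_
      rw [mul_one]
    have h3 := (hasDerivAt_pow' (N - 1) hr0).mul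
      ((h1.mul (hJ _ (hm n) r)).sub
        (((hasDerivAt_pow' n hr0).mul h2).mul ((hJ _ hm1 r).div_const ((N : ℝ) / 2 + n))))
    refine h3.congr_deriv ?_
    have hc : (((N - 1 : ℕ)) : ℝ) = (N : ℝ) - 1 := by
      rw [Nat.cast_sub (by omega), Nat.cast_one]
    have h4 := alg (r ^ (N - 1)) (r ^ n) (J ((N : ℝ) / 2 + n) (L * r ^ 2 / 4))
      (J ((N : ℝ) / 2 + n + 1) (L * r ^ 2 / 4)) (J ((N : ℝ) / 2 + n + 1 + 1) (L * r ^ 2 / 4))
      ((N : ℝ) / 2 + n) r L N n hr0 (hm n).ne' hm1.ne' (by ring) (by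
        have h5 := (hJS _ (hm n)).2.2.2 (L * r ^ 2 / 4)
        have h6 : (N : ℝ) / 2 + n + 2 = (N : ℝ) / 2 + n + 1 + 1 := by ring
        rw [h6] at h5
        exact h5)
    rw [hc]
    exact h4

end Pool.Agent.H14.LQ
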