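import Pool.Agent.H54.LQ.Targets

/-!
# Board lpq_modules, row SE0: selectors for groups
-/

set_option autoImplicit false

open Set Filter Topology

namespace Pool.Agent.H14.LQ

open Pool.Agent.H93.CP Pool.Agent.H7.LP Pool.Agent.H7.LQ Pool.Agent.H54.LQ

/-- SE0: selectors for groups. -/
theorem pf_SEL0 (h1 : T_SEG) : T_SEL0 := by
  intro G _ _ _ _ _ _ B
  have : Nonempty G := ⟨1⟩
  obtain ⟨sel, hm, hs⟩ := h1 G B.U B.opn B.bas
  exact ⟨sel, hm, fun F c h1 h2 h3 => (hs F c h1 h2 h3).1, fun F c h1 h2 h3 =>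
    (hs F c h1 h2 h3).2⟩

end Pool.Agent.H14.LQ
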