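import Pool.Agent.H54.LQ.Targets

/-!
# Board lpq_modules, row SEG: measurable dense selectors of closed sets, as functions of the code
-/

set_option autoImplicit false

open Set Filter Topology

namespace Pool.Agent.H14.LQ

open Pool.Agent.H93.CP Pool.Agent.H7.LP Pool.Agent.H7.LQ Pool.Agent.H54.LQ

/-- one selector -/
theorem seg_core (h1 : Pool.Agent.H7.LP.T_RCZ) (E : Type) [MetricSpace E] [CompleteSpace E]
    [SecondCountableTopology E] [Nonempty E] [MeasurableSpace E] [BorelSpace E] (U : ℕ → Set E)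
    (hU : ∀ p, IsOpen (U p)) (hbas : ∀ (a : E), ∀ O ∈ 𝓝 a, ∃ p, a ∈ U p ∧ U p ⊆ O) (j : ℕ) :
    ∃ f : (ℕ → Bool) → E, Measurable f ∧ ∀ (F : Set E) (c : ℕ → Bool), IsClosed F →
      F.Nonempty → (∀ p, c p = true ↔ (F ∩ U p).Nonempty) →
      f c ∈ F ∧ (c j = true → f c ∈ U j) := by
  classical
  have hb : ∀ a : ℕ, MeasurableSet {c : ℕ → Bool | c a = true} := by
    intro a
    have h2 : Measurable fun c : ℕ → Bool => c a := measurable_pi_apply a
    exact h2 (measurableSet_singleton true)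
  obtain ⟨Fj, hF1, hF2, hF3⟩ := h1 (ℕ → Bool) ℕ
    (fun c a => c a = true ∧ (c j = true → U a ⊆ U j))
    (fun c s a a' => c a' = true ∧ (closure (U a') ⊆ U a ∧
      ∃ x, U a' ⊆ Metric.ball x ((1 / 2 : ℝ) ^ (s + 1))))
    (by
      intro a
      refine (hb a).inter ?_
      have h9 : MeasurableSet {c : ℕ → Bool | c j = true → U a ⊆ U j} := by
        by_cases h : U a ⊆ U j
        · have e : {c : ℕ → Bool | c j = true → U a ⊆ U j} = univ := by
            ext c
            simp [h]
          rw [e]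
          exact MeasurableSet.univ
        · have e : {c : ℕ → Bool | c j = true → U a ⊆ U j} = {c : ℕ → Bool | c j = true}ᶜ := by
            ext c
            simp [h]
          rw [e]
          exact (hb j).compl
      exact h9)
    (fun s a a' => (hb a').inter (MeasurableSet.const _))
  let D : ℕ → E := fun a => if h : (U a).Nonempty then h.some else Classical.arbitrary E
  have hD : ∀ a, (U a).Nonempty → D a ∈ U a := by
    intro a h
    simp only [D, dif_pos h]
    exact h.some_mem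
  have hm : ∀ s, MeasureTheory.StronglyMeasurable fun c => D (Fj c s) := by
    intro s
    have h2 : Measurable fun c => Fj c s := measurable_to_countable' fun a => hF1 s a
    exact ((Measurable.of_discrete (f := D)).comp h2).stronglyMeasurable
  refine ⟨fun c => limUnder atTop fun s => D (Fj c s),
    (MeasureTheory.StronglyMeasurable.limUnder hm).measurable, ?_⟩
  intro F c hFc hFn hc
  -- the start
  have hI : c (Fj c 0) = true ∧ (c j = true → U (Fj c 0) ⊆ U j) := by
    apply hF2
    by_cases hj : c j = true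
    · obtain ⟨g, hg, hgj⟩ := (hc j).1 hj
      obtain ⟨a, ha, haj⟩ := hbas g (U j) ((hU j).mem_nhds hgj)
      exact ⟨a, (hc a).2 ⟨g, hg, ha⟩, fun _ => haj⟩
    · obtain ⟨g, hg⟩ := hFn
      obtain ⟨a, ha, -⟩ := hbas g univ univ_mem
      exact ⟨a, (hc a).2 ⟨g, hg, ha⟩, fun h => absurd h hj⟩
  -- the steps
  have hS : ∀ (a s : ℕ), c a = true → ∃ a', c a' = true ∧ (closure (U a') ⊆ U a ∧
      ∃ x, U a' ⊆ Metric.ball x ((1 / 2 : ℝ) ^ (s + 1))) := by
    intro a s ha
    obtain ⟨g, hg, hga⟩ := (hc a).1 ha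
    obtain ⟨r, hr, hrU⟩ := Metric.nhds_basis_closedBall.mem_iff.1 ((hU a).mem_nhds hga)
    have hr2 : (0 : ℝ) < min r ((1 / 2 : ℝ) ^ (s + 1)) := lt_min hr (by positivity)
    obtain ⟨a', ha', haU⟩ := hbas g _ (Metric.ball_mem_nhds g hr2)
    refine ⟨a', (hc a').2 ⟨g, hg, ha'⟩, ?_, g, haU.trans (Metric.ball_subset_ball
      (min_le_right _ _))⟩
    exact (closure_mono haU).trans (Metric.closure_ball_subset_closedBall.trans
      ((Metric.closedBall_subset_closedBall (min_le_left _ _)).trans hrU))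
  have hA : ∀ s, c (Fj c s) = true := by
    intro s
    induction s with
    | zero => exact hI.1
    | succ s ih => exact (hF3 c s (hS _ s ih)).1
  have hT := fun s => (hF3 c s (hS _ s (hA s))).2
  have hne : ∀ s, (U (Fj c s)).Nonempty := by
    intro s
    obtain ⟨g, -, hg⟩ := (hc _).1 (hA s)
    exact ⟨g, hg⟩
  have hanti : ∀ s t, s ≤ t → U (Fj c t) ⊆ U (Fj c s) := by
    intro s t hst
    induction t, hst using Nat.le_induction with
    | base => exact subset_rfl
    | succ t _ ih => exact (subset_closure.trans (hT t).1).trans ih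
  have hdist : ∀ s, ∀ y ∈ U (Fj c (s + 1)), ∀ z ∈ U (Fj c (s + 1)),
      dist y z < 2 * (1 / 2 : ℝ) ^ (s + 1) := by
    intro s y hy z hz
    obtain ⟨x, hx⟩ := (hT s).2
    have e1 := Metric.mem_ball.1 (hx hy)
    have e2 := Metric.mem_ball.1 (hx hz)
    have e3 := dist_triangle_right y z x
    linarith
  have hcau : CauchySeq fun s => D (Fj c s) := by
    rw [Metric.cauchySeq_iff]
    intro ε hε
    obtain ⟨N, hN⟩ := exists_pow_lt_of_lt_one hε (by norm_num : (1 / 2 : ℝ) < 1)
    refine ⟨N + 1, fun m hm' n hn => ?_⟩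
    have h3 := hdist N _ (hanti _ m hm' (hD _ (hne m))) _ (hanti _ n hn (hD _ (hne n)))
    have h4 : 2 * (1 / 2 : ℝ) ^ (N + 1) = (1 / 2) ^ N := by
      rw [pow_succ]
      ring
    rw [h4] at h3
    exact h3.trans hN
  obtain ⟨z, hz⟩ := cauchySeq_tendsto_of_complete hcau
  have hzU : ∀ s, z ∈ U (Fj c s) := by
    intro s
    apply (hT s).1
    refine isClosed_closure.mem_of_tendsto hz ?_
    filter_upwards [eventually_ge_atTop (s + 1)] with t ht
    exact subset_closure (hanti _ t ht (hD _ (hne t)))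
  have hlim : limUnder atTop (fun s => D (Fj c s)) = z := hz.limUnder_eq
  dsimp only
  rw [hlim]
  refine ⟨?_, fun hj => hI.2 hj (hzU 0)⟩
  rw [← hFc.closure_eq, Metric.mem_closure_iff]
  intro ε hε
  obtain ⟨N, hN⟩ := exists_pow_lt_of_lt_one hε (by norm_num : (1 / 2 : ℝ) < 1)
  obtain ⟨g, hg, hgU⟩ := (hc _).1 (hA (N + 1))
  refine ⟨g, hg, ?_⟩
  have h3 := hdist N z (hzU (N + 1)) g hgU
  have h4 : 2 * (1 / 2 : ℝ) ^ (N + 1) = (1 / 2) ^ N := by
    rw [pow_succ]
    ring
  rw [h4] at h3
  exact h3.trans hN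

/-- SEG: measurable dense selectors of closed sets, as functions of the code. -/
theorem pf_SEG (h1 : Pool.Agent.H7.LP.T_RCZ) : T_SEG := by
  intro E _ _ _ _ _ U hU hbas
  let := TopologicalSpace.upgradeIsCompletelyMetrizable E
  choose f hf hf2 using fun j => seg_core h1 E U hU hbas j
  refine ⟨fun c n => f n c, fun n => hf n, ?_⟩
  intro F c hFc hFn hc
  refine ⟨fun n => (hf2 n F c hFc hFn hc).1, fun g hg O hO => ?_⟩
  obtain ⟨p, hp, hpO⟩ := hbas g O hO
  exact ⟨p, hpO ((hf2 p F c hFc hFn hc).2 ((hc p).2 ⟨g, hg, hp⟩))⟩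

end Pool.Agent.H14.LQ
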