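import Pool.Agent.H26.LQ.Defs

/-!
# lq_modules, module SQ1: facts on the square root
-/

set_option autoImplicit false

open MeasureTheory Set Filter Topology Metric

namespace Pool.Agent.H14.LQ

open Pool.Agent.H26.LQ Pool.Agent.H26.ZQ Pool.Agent.H26.MQ Pool.Agent.H26.ML

theorem sq_half (z : ℂ) : (z ^ (1 / 2 : ℂ)) ^ 2 = z := by
  rw [← Complex.cpow_nat_mul]
  norm_num

theorem half_re (z : ℂ) : 0 ≤ (z ^ (1 / 2 : ℂ)).re := by
  by_cases hz : z = 0
  · subst hz
    rw [Complex.zero_cpow (by norm_num)]
    simp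
  · rw [Complex.cpow_def_of_ne_zero hz, Complex.exp_re]
    have h1 : (Complex.log z * (1 / 2)).im = Complex.arg z / 2 := by
      have : Complex.log z * (1 / 2) = ((1 / 2 : ℝ) : ℂ) * Complex.log z := by
        push_cast
        ring
      rw [this, Complex.im_ofReal_mul, Complex.log_im]
      ring
    rw [h1]
    refine mul_nonneg (Real.exp_pos _).le (Real.cos_nonneg_of_neg_pi_div_two_le_of_le ?_ ?_)
    · have := Complex.neg_pi_lt_arg z
      linarith
    · have := Complex.arg_le_pi z
      linarith

theorem sq_re (s : ℂ) : (s ^ 2).re = s.re * s.re - s.im * s.im := by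
  rw [pow_two, Complex.mul_re]

theorem sq_im (s : ℂ) : (s ^ 2).im = 2 * (s.re * s.im) := by
  rw [pow_two, Complex.mul_im]
  ring

theorem abs_le_half {z : ℂ} (hz : 0 ≤ z.re) : |(z ^ (1 / 2 : ℂ)).im| ≤ (z ^ (1 / 2 : ℂ)).re := by
  have h1 := sq_re (z ^ (1 / 2 : ℂ))
  rw [sq_half] at h1
  refine abs_le_of_sq_le_sq ?_ (half_re z)
  nlinarith

theorem abs_lt_half {z : ℂ} (hz : 0 < z.re) : |(z ^ (1 / 2 : ℂ)).im| < (z ^ (1 / 2 : ℂ)).re := by
  have h1 := sq_re (z ^ (1 / 2 : ℂ))
  rw [sq_half] at h1
  refine abs_lt_of_sq_lt_sq ?_ (half_re z)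
  nlinarith

theorem pf_sq1 : T_SQ1 := by
  refine ⟨?_, ?_, ?_, ?_, ?_, ?_⟩
  · intro w
    unfold sq1
    rw [mul_pow, sq_half, sq_half]
    linear_combination Complex.I_sq * (-1 : ℂ)
  · intro w hw
    have hw' : 0 ≤ w.re := hw
    unfold sq1
    refine ContinuousAt.continuousWithinAt (ContinuousAt.mul ?_ ?_)
    · refine ContinuousAt.comp (f := fun w : ℂ => w + Complex.I)
        (g := fun z : ℂ => z ^ (1 / 2 : ℂ)) ?_ (by fun_prop)
      exact Complex.continuousAt_cpow_const_of_re_pos (Or.inl (by simpa using hw')) (by norm_num)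
    · refine ContinuousAt.comp (f := fun w : ℂ => w - Complex.I)
        (g := fun z : ℂ => z ^ (1 / 2 : ℂ)) ?_ (by fun_prop)
      exact Complex.continuousAt_cpow_const_of_re_pos (Or.inl (by simpa using hw')) (by norm_num)
  · intro w hw
    have h1 : w + Complex.I ∈ Complex.slitPlane ∧ w - Complex.I ∈ Complex.slitPlane := by
      rcases hw with hw | hw
      · have hw' : 0 < w.re := hw
        exact ⟨Or.inl (by simpa using hw'), Or.inl (by simpa using hw')⟩
      · rw [mem_ball_zero_iff] at hw
        have h2 := (Complex.abs_im_le_norm w).trans_lt hw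
        rw [abs_lt] at h2
        refine ⟨Or.inr ?_, Or.inr ?_⟩
        · rw [Complex.add_im, Complex.I_im]
          linarith
        · rw [Complex.sub_im, Complex.I_im]
          linarith
    unfold sq1
    exact ((analyticAt_id.add analyticAt_const).cpow analyticAt_const h1.1).mul
      ((analyticAt_id.sub analyticAt_const).cpow analyticAt_const h1.2)
  · intro w hw
    unfold sq1
    rw [Complex.mul_re]
    have h1 := abs_le_half (z := w + Complex.I) (by simpa using hw)
    have h2 := abs_le_half (z := w - Complex.I) (by simpa using hw)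
    have h3 := half_re (w + Complex.I)
    set s := (w + Complex.I) ^ (1 / 2 : ℂ)
    set t := (w - Complex.I) ^ (1 / 2 : ℂ)
    have h4 : |s.im * t.im| ≤ s.re * t.re := by
      rw [abs_mul]
      exact mul_le_mul h1 h2 (abs_nonneg _) h3
    linarith [le_abs_self (s.im * t.im)]
  · intro w hw
    unfold sq1
    rw [Complex.mul_re]
    have h1 := abs_lt_half (z := w + Complex.I) (by simpa using hw)
    have h2 := abs_lt_half (z := w - Complex.I) (by simpa using hw)
    set s := (w + Complex.I) ^ (1 / 2 : ℂ)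
    set t := (w - Complex.I) ^ (1 / 2 : ℂ)
    have h4 : |s.im * t.im| < s.re * t.re := by
      rw [abs_mul]
      exact mul_lt_mul'' h1 h2 (abs_nonneg _) (abs_nonneg _)
    linarith [le_abs_self (s.im * t.im)]
  · intro w hw
    have h2 := (Complex.abs_im_le_norm w).trans_lt hw
    rw [abs_lt] at h2
    unfold sq1
    rw [Complex.mul_re]
    have e1 := sq_im ((w + Complex.I) ^ (1 / 2 : ℂ))
    have e2 := sq_im ((w - Complex.I) ^ (1 / 2 : ℂ))
    rw [sq_half, Complex.add_im, Complex.I_im] at e1
    rw [sq_half, Complex.sub_im, Complex.I_im] at e2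
    have h3 := half_re (w + Complex.I)
    have h4 := half_re (w - Complex.I)
    set s := (w + Complex.I) ^ (1 / 2 : ℂ)
    set t := (w - Complex.I) ^ (1 / 2 : ℂ)
    have p1 : 0 < s.re * s.im := by linarith
    have p2 : t.re * t.im < 0 := by linarith
    have a1 : 0 < s.re := by
      rcases h3.lt_or_eq with h | h
      · exact h
      · rw [← h, zero_mul] at p1
        exact absurd p1 (lt_irrefl 0)
    have a2 : 0 < t.re := by
      rcases h4.lt_or_eq with h | h
      · exact h
      · rw [← h, zero_mul] at p2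
        exact absurd p2 (lt_irrefl 0)
    have b1 : 0 < s.im := (pos_iff_pos_of_mul_pos p1).1 a1
    have b2 : t.im < 0 := by
      by_contra hcon
      push Not at hcon
      have := mul_nonneg a2.le hcon
      linarith
    have c1 := mul_pos a1 a2
    have c2 := mul_neg_of_pos_of_neg b1 b2
    linarith

end Pool.Agent.H14.LQ
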