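import Pool.Agent.H26.LQ.Defs

/-!
# lq_modules, module ZM1: regularity of the inverse of the hyperbolic sine
-/

set_option autoImplicit false

open MeasureTheory Set Filter Topology Metric

namespace Pool.Agent.H14.LQ

open Pool.Agent.H26.LQ Pool.Agent.H26.ZQ Pool.Agent.H26.MQ Pool.Agent.H26.ML

theorem slit_of {w : ℂ} (h1 : sq1 w ^ 2 = w ^ 2 + 1) (h2 : 0 ≤ w.re ∧ 0 ≤ (sq1 w).re ∨ 0 < (sq1 w).re) :
    w + sq1 w ∈ Complex.slitPlane := by
  have h3 : (w + sq1 w) * (sq1 w - w) = 1 := by
    linear_combination h1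
  by_contra hcon
  rw [Complex.mem_slitPlane_iff] at hcon
  push Not at hcon
  obtain ⟨hre, him⟩ := hcon
  have h4 := congrArg Complex.re h3
  rw [Complex.mul_re, him, zero_mul, sub_zero, Complex.one_re] at h4
  have h5 : (w + sq1 w).re < 0 := by
    rcases hre.lt_or_eq with h | h
    · exact h
    · rw [h, zero_mul] at h4
      exact absurd h4 (by norm_num)
  rcases h2 with h2 | h2
  · rw [Complex.add_re] at h5
    linarith [h2.1, h2.2]
  · have h6 : (sq1 w - w).re < 0 := by
      by_contra h
      push Not at h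
      have := mul_nonpos_of_nonpos_of_nonneg h5.le h
      linarith
    rw [Complex.add_re] at h5
    rw [Complex.sub_re] at h6
    linarith

theorem pf_zm1 (hSQ : T_SQ1) : T_ZM1 := by
  obtain ⟨s1, s2, s3, s4, s5, s6⟩ := hSQ
  intro κ hκ
  refine ⟨?_, ?_⟩
  · intro w hw
    have hw' : 0 ≤ w.re := hw
    unfold zm
    refine ContinuousWithinAt.div_const ?_ _
    refine ContinuousWithinAt.clog ?_ ?_
    · exact (continuousWithinAt_id).add (s2 w hw)
    · exact slit_of (s1 w) (Or.inl ⟨hw', s4 w hw'⟩)
  · intro w hw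
    have hS := s3 w hw
    have h1 : w + sq1 w ∈ Complex.slitPlane := by
      rcases hw with hw | hw
      · have hw' : 0 < w.re := hw
        exact slit_of (s1 w) (Or.inr (s5 w hw'))
      · rw [mem_ball_zero_iff] at hw
        exact slit_of (s1 w) (Or.inr (s6 w hw))
    unfold zm
    exact ((analyticAt_id.add hS).clog h1).div analyticAt_const (by exact_mod_cast hκ.ne')

end Pool.Agent.H14.LQ
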